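import Pool.Agent.LexPow.FourThirdsReg

set_option autoImplicit false

namespace Pool.Agent.Results.MP_2f87a7_co.FourThirdsRegular

open Pool.Agent.LexPow

theorem early : (List.range 36).all (fun k => k == 35 ||
    Planes.letter FT.wb (1631 + k) == Planes.letter FT.wb (1631 + k + 1008)) = true := by
  decide +kernel

/-- The case `a/b = 4/3` of Q1, with the Pudwell–Rowland relation: the lexicographically least word
`w` over `ℕ` avoiding all powers `≥ 4/3` exists; if `u` is the lexicographically least word avoiding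
(exact) `4/3`-powers, then `w (336 i + 1666) = u (56 i + 17) + 4` for all `i`; off the residue class
of `322` modulo `336` the word `w` has period `1008` from position `1631` on; and `w` is
`56`-regular. -/
theorem result :
    (∃ w : ℕ → ℕ, Least 4 3 w) ∧ (∃ u : ℕ → ℕ, LeastExact 4 3 u) ∧
    ∀ w : ℕ → ℕ, Least 4 3 w →
      (∀ u : ℕ → ℕ, LeastExact 4 3 u → ∀ i : ℕ, w (336 * i + 1666) = u (56 * i + 17) + 4) ∧
      (∀ n : ℕ, 1631 ≤ n → n % 336 ≠ 322 → w (n + 1008) = w n) ∧
      (Submodule.span ℤ
        {f : ℕ → ℤ | ∃ e r : ℕ, r < 56 ^ e ∧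
          f = fun n => ((w (56 ^ e * n + r) : ℕ) : ℤ)}).FG := by
  refine ⟨⟨FT.W, FT.least_W⟩, ⟨FT.V, FT.least_V⟩, fun w hw => ?_⟩
  obtain rfl := FT.eq_W hw
  refine ⟨fun u hu i => ?_, fun n h1 h2 => ?_, FT.W_regular⟩
  · obtain rfl := FT.eq_V hu
    exact FT.relation i
  · rw [FT.W_ns (by omega), FT.W_ns (by omega)]
    by_cases h3 : 1667 ≤ n
    · exact FT.B_cong (by unfold Planes.Cong; omega)
    · have h4 := List.all_eq_true.1 early (n - 1631) (List.mem_range.2 (by omega))
      rw [Bool.or_eq_true, beq_iff_eq, beq_iff_eq, show 1631 + (n - 1631) = n by omega] at h4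
      have h5 := h4.resolve_left (by omega)
      rw [FT.B_eq (by omega), FT.B_eq (by omega)] at h5
      exact h5.symm

end Pool.Agent.Results.MP_2f87a7_co.FourThirdsRegular
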