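import Pool.Agent.LexPow.ThreeHalves

set_option autoImplicit false

namespace Pool.Agent.Results.MP_2f87a7_co.ThreeHalvesRegular

open Pool.Agent.LexPow

/-- The case `a/b = 3/2` of Q1, with the exact structure of the word: the lexicographically least
word `w` over `ℕ` avoiding all powers `≥ 3/2` exists, consists of blocks `0 1 2 0 x` and
`1 0 2 1 y` alternately, where the letters at the positions `5 i + 4` are `w (5 i + 4) = u i + 3` for
the lexicographically least word `u` avoiding (exact) `3/2`-powers, and `w` is `6`-regular. -/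
theorem result :
    (∃ w : ℕ → ℕ, Least 3 2 w) ∧ (∃ u : ℕ → ℕ, LeastExact 3 2 u) ∧
    ∀ w : ℕ → ℕ, Least 3 2 w →
      (∀ u : ℕ → ℕ, LeastExact 3 2 u → ∀ i : ℕ, w (5 * i + 4) = u i + 3) ∧
      (∀ i : ℕ, w (10 * i) = 0 ∧ w (10 * i + 1) = 1 ∧ w (10 * i + 2) = 2 ∧ w (10 * i + 3) = 0 ∧
        w (10 * i + 5) = 1 ∧ w (10 * i + 6) = 0 ∧ w (10 * i + 7) = 2 ∧ w (10 * i + 8) = 1) ∧
      (Submodule.span ℤ
        {f : ℕ → ℤ | ∃ e r : ℕ, r < 6 ^ e ∧
          f = fun n => ((w (6 ^ e * n + r) : ℕ) : ℤ)}).FG := by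
  refine ⟨⟨TH.W, TH.least_W⟩, ⟨TH.U, TH.least_U⟩, fun w hw => ?_⟩
  obtain rfl := TH.eq_W hw
  refine ⟨fun u hu i => ?_, fun i => ?_, TH.W_regular⟩
  · obtain rfl := TH.eq_U hu
    exact TH.W_sp i
  · have h : ∀ r : ℕ, r < 10 → r % 5 ≠ 4 → TH.W (10 * i + r) = TH.Q r := by
      intro r hr h5
      rw [TH.W_ns (by omega), TH.Q_mod (a := 10 * i + r) (b := r) (by omega)]
    exact ⟨h 0 (by omega) (by omega), h 1 (by omega) (by omega), h 2 (by omega) (by omega),
      h 3 (by omega) (by omega), h 5 (by omega) (by omega), h 6 (by omega) (by omega),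
      h 7 (by omega) (by omega), h 8 (by omega) (by omega)⟩

end Pool.Agent.Results.MP_2f87a7_co.ThreeHalvesRegular
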